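import Pool.Agent.Lib.MP_405077_mp.Defs

/-!
A `C^1` cut-off function and its elementary properties (used for VIRIAL in MP_405077_mp).
-/

set_option autoImplicit false

open MeasureTheory Set Filter Topology

namespace Pool.Agent.Lib.MP_405077_mp.H8

/-- The bump `6 s (1-s)` on `[0,1]`. -/
noncomputable def kk (s : ℝ) : ℝ := 6 * (max 0 s * max 0 (1 - s))

lemma kk_cont : Continuous kk := by
  unfold kk; fun_prop

lemma kk_nonneg (s : ℝ) : 0 ≤ kk s := by
  unfold kk
  have h1 : 0 ≤ max 0 s := le_max_left _ _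
  have h2 : 0 ≤ max 0 (1 - s) := le_max_left _ _
  positivity

lemma kk_zero_left {s : ℝ} (h : s ≤ 0) : kk s = 0 := by
  unfold kk
  rw [max_eq_left h]; ring

lemma kk_zero_right {s : ℝ} (h : 1 ≤ s) : kk s = 0 := by
  unfold kk
  rw [max_eq_left (by linarith : 1 - s ≤ 0)]; ring

lemma kk_le (s : ℝ) : kk s ≤ 6 := by
  rcases le_total s 0 with h | h
  · rw [kk_zero_left h]; norm_num
  rcases le_total 1 s with h' | h'
  · rw [kk_zero_right h']; norm_num
  unfold kk
  rw [max_eq_right h, max_eq_right (by linarith : 0 ≤ 1 - s)]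
  nlinarith

/-- The cut-off `∫_0^t kk`. -/
noncomputable def hh (t : ℝ) : ℝ := ∫ s in (0 : ℝ)..t, kk s

lemma hh_hasDerivAt (t : ℝ) : HasDerivAt hh (kk t) t :=
  intervalIntegral.integral_hasDerivAt_right (kk_cont.intervalIntegrable _ _)
    (kk_cont.stronglyMeasurableAtFilter _ _) kk_cont.continuousAt

lemma hh_mono : Monotone hh := by
  apply monotone_of_deriv_nonneg
  · intro t; exact (hh_hasDerivAt t).differentiableAt
  · intro t; rw [(hh_hasDerivAt t).deriv]; exact kk_nonneg t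

lemma hh_zero {t : ℝ} (h : t ≤ 0) : hh t = 0 := by
  unfold hh
  rw [intervalIntegral.integral_symm]
  rw [intervalIntegral.integral_congr (g := fun _ => (0 : ℝ))]
  · simp
  · intro s hs
    rw [uIcc_of_le h] at hs
    exact kk_zero_left hs.2

lemma hh_at_one : hh 1 = 1 := by
  unfold hh
  rw [intervalIntegral.integral_congr (g := fun s : ℝ => 6 * s - 6 * s ^ 2)]
  · rw [intervalIntegral.integral_sub, intervalIntegral.integral_const_mul,
      intervalIntegral.integral_const_mul, integral_id, integral_pow]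
    · norm_num
    · exact (by fun_prop : Continuous fun s : ℝ => 6 * s).intervalIntegrable _ _
    · exact (by fun_prop : Continuous fun s : ℝ => 6 * s ^ 2).intervalIntegrable _ _
  · intro s hs
    rw [uIcc_of_le zero_le_one] at hs
    simp only [kk]
    rw [max_eq_right hs.1, max_eq_right (by linarith [hs.2] : 0 ≤ 1 - s)]
    ring

lemma hh_one {t : ℝ} (h : 1 ≤ t) : hh t = 1 := by
  have h1 : hh t = hh 1 + ∫ s in (1 : ℝ)..t, kk s := by
    unfold hh
    rw [intervalIntegral.integral_add_adjacent_intervals] <;>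
      exact kk_cont.intervalIntegrable _ _
  rw [h1, hh_at_one, intervalIntegral.integral_congr (g := fun _ => (0 : ℝ))]
  · simp
  · intro s hs
    rw [uIcc_of_le h] at hs
    exact kk_zero_right hs.1

lemma hh_nonneg (t : ℝ) : 0 ≤ hh t := by
  rcases le_total t 0 with h | h
  · rw [hh_zero h]
  · rw [← hh_zero (le_refl (0 : ℝ))]; exact hh_mono h

lemma hh_le_one (t : ℝ) : hh t ≤ 1 := by
  rcases le_total t 1 with h | h
  · rw [← hh_one (le_refl (1 : ℝ))]; exact hh_mono h
  · rw [hh_one h]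

lemma hh_cont : Continuous hh :=
  continuous_iff_continuousAt.2 fun t => (hh_hasDerivAt t).continuousAt

/-- The cut-off at level `r`. -/
noncomputable def hr (ε r s : ℝ) : ℝ := hh ((s - r) / ε)

/-- Its derivative. -/
noncomputable def kr (ε r s : ℝ) : ℝ := kk ((s - r) / ε) / ε

lemma hr_hasDerivAt (ε r s : ℝ) : HasDerivAt (hr ε r) (kr ε r s) s := by
  unfold hr kr
  have h1 : HasDerivAt (fun s : ℝ => (s - r) / ε) (1 / ε) s := by
    simpa using ((hasDerivAt_id s).sub_const r).div_const ε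
  have h2 := (hh_hasDerivAt ((s - r) / ε)).comp s h1
  have h3 : kk ((s - r) / ε) * (1 / ε) = kk ((s - r) / ε) / ε := by ring
  rw [h3] at h2
  exact h2

lemma hr_hasDerivAt_r (ε r s : ℝ) : HasDerivAt (fun r => hr ε r s) (-kr ε r s) r := by
  unfold hr kr
  have h1 : HasDerivAt (fun r : ℝ => (s - r) / ε) (-1 / ε) r := by
    simpa using ((hasDerivAt_id r).const_sub s).div_const ε
  have h2 := (hh_hasDerivAt ((s - r) / ε)).comp r h1
  have h3 : kk ((s - r) / ε) * (-1 / ε) = -(kk ((s - r) / ε) / ε) := by ring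
  rw [h3] at h2
  exact h2

lemma hr_deriv (ε r s : ℝ) : deriv (hr ε r) s = kr ε r s := (hr_hasDerivAt ε r s).deriv

lemma hr_cont2 (ε : ℝ) : Continuous (fun p : ℝ × ℝ => hr ε p.1 p.2) := by
  unfold hr
  exact hh_cont.comp (by fun_prop)

lemma kr_cont2 (ε : ℝ) : Continuous (fun p : ℝ × ℝ => kr ε p.1 p.2) := by
  unfold kr
  exact (kk_cont.comp (by fun_prop : Continuous fun p : ℝ × ℝ => (p.2 - p.1) / ε)).div_const ε

lemma kr_cont (ε r : ℝ) : Continuous (kr ε r) :=
  (kr_cont2 ε).comp (by fun_prop : Continuous fun s : ℝ => (r, s))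

lemma kr_cont_r (ε s : ℝ) : Continuous (fun r => kr ε r s) :=
  (kr_cont2 ε).comp (by fun_prop : Continuous fun r : ℝ => (r, s))

lemma hr_cont_r (ε s : ℝ) : Continuous (fun r => hr ε r s) :=
  (hr_cont2 ε).comp (by fun_prop : Continuous fun r : ℝ => (r, s))

lemma hr_contDiff (ε r : ℝ) : ContDiff ℝ 1 (hr ε r) := by
  rw [contDiff_one_iff_deriv]
  refine ⟨fun s => (hr_hasDerivAt ε r s).differentiableAt, ?_⟩
  have : deriv (hr ε r) = kr ε r := by
    funext s; exact hr_deriv ε r s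
  rw [this]; exact kr_cont ε r

lemma hr_mono {ε : ℝ} (hε : 0 < ε) (r : ℝ) : Monotone (hr ε r) := by
  intro a b hab
  unfold hr
  apply hh_mono
  gcongr

lemma hr_nonneg (ε r s : ℝ) : 0 ≤ hr ε r s := hh_nonneg _

lemma hr_le_one (ε r s : ℝ) : hr ε r s ≤ 1 := hh_le_one _

lemma hr_zero {ε : ℝ} (hε : 0 < ε) {r s : ℝ} (h : s ≤ r) : hr ε r s = 0 := by
  unfold hr
  apply hh_zero
  apply div_nonpos_of_nonpos_of_nonneg (by linarith) hε.le

lemma hr_one {ε : ℝ} (hε : 0 < ε) {r s : ℝ} (h : r ≤ s - ε) : hr ε r s = 1 := by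
  unfold hr
  apply hh_one
  rw [le_div_iff₀ hε]; linarith

lemma kr_nonneg {ε : ℝ} (hε : 0 < ε) (r s : ℝ) : 0 ≤ kr ε r s := by
  unfold kr
  exact div_nonneg (kk_nonneg _) hε.le

lemma kr_zero {ε : ℝ} (hε : 0 < ε) {r s : ℝ} (h : s ≤ r) : kr ε r s = 0 := by
  unfold kr
  rw [kk_zero_left]
  · simp
  · apply div_nonpos_of_nonpos_of_nonneg (by linarith) hε.le

lemma kr_le {ε : ℝ} (hε : 0 < ε) (r s : ℝ) : kr ε r s ≤ 6 / ε := by
  unfold kr
  gcongr
  exact kk_le _

/-- `∫_a^b k_r(s) dr ≤ 1`. -/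
lemma int_kr_le (ε : ℝ) {a b : ℝ} (hab : a ≤ b) (s : ℝ) :
    ∫ r in Ioc a b, kr ε r s ≤ 1 := by
  rw [← intervalIntegral.integral_of_le hab]
  have h1 : ∫ r in a..b, kr ε r s = -hr ε b s - -hr ε a s := by
    apply intervalIntegral.integral_eq_sub_of_hasDerivAt (f := fun r => -hr ε r s)
    · intro r _
      have h2 : HasDerivAt (fun r => -hr ε r s) (- -kr ε r s) r := (hr_hasDerivAt_r ε r s).neg
      rwa [neg_neg] at h2
    · exact (kr_cont_r ε s).intervalIntegrable _ _
  rw [h1]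
  have := hr_nonneg ε b s
  have := hr_le_one ε a s
  linarith

/-- The symmetrised bound `P(s,t) + P(t,s) ≤ 1`. -/
lemma int_sym_le (ε : ℝ) {a b : ℝ} (hab : a ≤ b) (s t : ℝ) :
    (∫ r in Ioc a b, kr ε r s * (1 - hr ε r t)) +
      (∫ r in Ioc a b, kr ε r t * (1 - hr ε r s)) ≤ 1 := by
  rw [← intervalIntegral.integral_of_le hab, ← intervalIntegral.integral_of_le hab]
  have hc1 : Continuous (fun r => kr ε r s * (1 - hr ε r t)) :=
    (kr_cont_r ε s).mul (continuous_const.sub (hr_cont_r ε t))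
  have hc2 : Continuous (fun r => kr ε r t * (1 - hr ε r s)) :=
    (kr_cont_r ε t).mul (continuous_const.sub (hr_cont_r ε s))
  rw [← intervalIntegral.integral_add (hc1.intervalIntegrable _ _) (hc2.intervalIntegrable _ _)]
  have h1 : ∫ r in a..b, (kr ε r s * (1 - hr ε r t) + kr ε r t * (1 - hr ε r s)) =
      (1 - hr ε b s) * (1 - hr ε b t) - (1 - hr ε a s) * (1 - hr ε a t) := by
    apply intervalIntegral.integral_eq_sub_of_hasDerivAt
      (f := fun r => (1 - hr ε r s) * (1 - hr ε r t))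
    · intro r _
      have h1 : HasDerivAt (fun r => 1 - hr ε r s) (kr ε r s) r := by
        simpa using (hr_hasDerivAt_r ε r s).const_sub 1
      have h2 : HasDerivAt (fun r => 1 - hr ε r t) (kr ε r t) r := by
        simpa using (hr_hasDerivAt_r ε r t).const_sub 1
      have h3 : HasDerivAt (fun r => (1 - hr ε r s) * (1 - hr ε r t))
          (kr ε r s * (1 - hr ε r t) + (1 - hr ε r s) * kr ε r t) r := h1.mul h2
      have h4 : kr ε r s * (1 - hr ε r t) + kr ε r t * (1 - hr ε r s) =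
          kr ε r s * (1 - hr ε r t) + (1 - hr ε r s) * kr ε r t := by ring
      rw [h4]; exact h3
    · exact (hc1.add hc2).intervalIntegrable _ _
  rw [h1]
  have e1 := hr_nonneg ε b s
  have e2 := hr_le_one ε b s
  have e3 := hr_nonneg ε b t
  have e4 := hr_le_one ε b t
  have e5 := hr_le_one ε a s
  have e6 := hr_le_one ε a t
  nlinarith [mul_nonneg (sub_nonneg.2 e5) (sub_nonneg.2 e6),
    mul_nonneg (sub_nonneg.2 e2) e3]

/-- `∫_a^b (r-a)^{3/2} h_r(s)^2 dr ≥ (2/5) (s - ε - a)_+^{5/2}`. -/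
lemma int_hr_ge {ε : ℝ} (hε : 0 < ε) {a b s : ℝ} (_hab : a ≤ b) (hs : s ≤ b) :
    2 / 5 * (max (s - ε - a) 0) ^ (5 / 2 : ℝ) ≤
      ∫ r in Ioc a b, (r - a) ^ (3 / 2 : ℝ) * hr ε r s ^ 2 := by
  have hnn : ∀ r ∈ Ioc a b, 0 ≤ (r - a) ^ (3 / 2 : ℝ) * hr ε r s ^ 2 := by
    intro r hr'
    have : 0 ≤ r - a := by linarith [hr'.1]
    positivity
  rcases le_total (s - ε) a with h | h
  · rw [max_eq_right (by linarith), Real.zero_rpow (by norm_num), mul_zero]
    exact setIntegral_nonneg measurableSet_Ioc hnn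
  · have hcont : Continuous (fun r : ℝ => (r - a) ^ (3 / 2 : ℝ) * hr ε r s ^ 2) := by
      refine Continuous.mul ?_ ((hr_cont_r ε s).pow 2)
      exact (by fun_prop : Continuous fun r : ℝ => r - a).rpow_const
        (fun _ => Or.inr (by norm_num))
    have h1 : ∫ r in Ioc a (s - ε), (r - a) ^ (3 / 2 : ℝ) * hr ε r s ^ 2 ≤
        ∫ r in Ioc a b, (r - a) ^ (3 / 2 : ℝ) * hr ε r s ^ 2 := by
      apply setIntegral_mono_set
      · exact hcont.integrableOn_Ioc
      · exact (ae_restrict_iff' measurableSet_Ioc).2 (Eventually.of_forall hnn)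
      · exact (Ioc_subset_Ioc_right (by linarith)).eventuallyLE
    refine le_trans (le_of_eq ?_) h1
    have h2 : ∫ r in Ioc a (s - ε), (r - a) ^ (3 / 2 : ℝ) * hr ε r s ^ 2 =
        ∫ r in Ioc a (s - ε), (r - a) ^ (3 / 2 : ℝ) := by
      apply setIntegral_congr_fun measurableSet_Ioc
      intro r hr'
      simp only
      rw [hr_one hε hr'.2]; ring
    rw [h2, ← intervalIntegral.integral_of_le h,
      intervalIntegral.integral_comp_sub_right (fun r : ℝ => r ^ (3 / 2 : ℝ)) a,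
      integral_rpow (Or.inl (by norm_num)), max_eq_left (by linarith), sub_self,
      Real.zero_rpow (by norm_num)]
    norm_num
    ring

end Pool.Agent.Lib.MP_405077_mp.H8
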