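import Pool.Agent.Lib.MP_405077_mp.Defs
import Pool.Agent.Lib.MP_405077_mp.H8.Bump

/-!
VIRIAL for MP_405077_mp: integration of the level inequality over the levels, and `ε → 0`.
-/

set_option autoImplicit false

open MeasureTheory Set Filter Topology

namespace Pool.Agent.Lib.MP_405077_mp.H8

section Fub

variable {α : Type*} [MeasurableSpace α] (ν : Measure α) [SFinite ν] (a b : ℝ) (K : α → ℝ)

lemma fub_int (hK : Integrable K ν)
    (c : ℝ → α → ℝ) (hc : Measurable (fun p : ℝ × α => c p.1 p.2)) (C : ℝ)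
    (hC : ∀ r ∈ Ioc a b, ∀ x, |c r x| ≤ C) :
    Integrable (fun p : ℝ × α => c p.1 p.2 * K p.2) ((volume.restrict (Ioc a b)).prod ν) := by
  have h1 : Integrable (fun p : ℝ × α => K p.2) ((volume.restrict (Ioc a b)).prod ν) :=
    hK.comp_snd _
  refine Integrable.bdd_mul (c := C) h1 hc.aestronglyMeasurable ?_
  have h2 : ∀ᵐ r ∂(volume.restrict (Ioc a b)), r ∈ Ioc a b := ae_restrict_mem measurableSet_Ioc
  have h3 := (Measure.quasiMeasurePreserving_fst (μ := volume.restrict (Ioc a b)) (ν := ν)).ae h2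
  filter_upwards [h3] with p hp
  exact hC _ hp _

lemma fub_swap (hK : Integrable K ν)
    (c : ℝ → α → ℝ) (hc : Measurable (fun p : ℝ × α => c p.1 p.2)) (C : ℝ)
    (hC : ∀ r ∈ Ioc a b, ∀ x, |c r x| ≤ C) :
    ∫ r in Ioc a b, (∫ x, c r x * K x ∂ν) = ∫ x, (∫ r in Ioc a b, c r x) * K x ∂ν := by
  have h := fub_int ν a b K hK c hc C hC
  have h2 := integral_integral_swap (f := fun r x => c r x * K x) h
  rw [h2]
  apply integral_congr_ae
  refine Eventually.of_forall fun x => ?_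
  simp only
  rw [integral_mul_const]

lemma fub_left (hK : Integrable K ν)
    (c : ℝ → α → ℝ) (hc : Measurable (fun p : ℝ × α => c p.1 p.2)) (C : ℝ)
    (hC : ∀ r ∈ Ioc a b, ∀ x, |c r x| ≤ C) :
    IntegrableOn (fun r => ∫ x, c r x * K x ∂ν) (Ioc a b) :=
  (fub_int ν a b K hK c hc C hC).integral_prod_left

lemma fub_right (hK : Integrable K ν)
    (c : ℝ → α → ℝ) (hc : Measurable (fun p : ℝ × α => c p.1 p.2)) (C : ℝ)
    (hC : ∀ r ∈ Ioc a b, ∀ x, |c r x| ≤ C) :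
    Integrable (fun x => (∫ r in Ioc a b, c r x) * K x) ν := by
  have h := (fub_int ν a b K hK c hc C hC).integral_prod_right
  refine h.congr (Eventually.of_forall fun x => ?_)
  simp only
  rw [integral_mul_const]

end Fub

/-- Facts on the potential difference. -/
lemma phi_facts (hP : PotStatement) {m ρ : E3 → ℝ} (hm : BC m) (hρ : BC ρ) :
    Continuous (fun x => pot m x - pot ρ x) ∧
      ∃ C : ℝ, 0 ≤ C ∧ ∀ x, |pot m x - pot ρ x| * (1 + ‖x‖) ≤ C := by
  obtain ⟨_, _, ⟨C1, h1⟩, c1, _⟩ := hP m hm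
  obtain ⟨_, _, ⟨C2, h2⟩, c2, _⟩ := hP ρ hρ
  refine ⟨c1.continuous.sub c2.continuous, C1 + C2, ?_, ?_⟩
  · have e1 := h1 0
    have e2 := h2 0
    have e3 : 0 ≤ |pot m 0| * (1 + ‖(0 : E3)‖) := by positivity
    have e4 : 0 ≤ |pot ρ 0| * (1 + ‖(0 : E3)‖) := by positivity
    linarith
  · intro x
    have e1 := h1 x
    have e2 := h2 x
    have e3 : |pot m x - pot ρ x| ≤ |pot m x| + |pot ρ x| := abs_sub _ _
    have e4 : 0 ≤ 1 + ‖x‖ := by positivity
    calc |pot m x - pot ρ x| * (1 + ‖x‖) ≤ (|pot m x| + |pot ρ x|) * (1 + ‖x‖) := by gcongr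
      _ = |pot m x| * (1 + ‖x‖) + |pot ρ x| * (1 + ‖x‖) := by ring
      _ ≤ C1 + C2 := add_le_add e1 e2

lemma bc_integrable {q : E3 → ℝ} (hq : BC q) : Integrable q := by
  obtain ⟨M, hM⟩ := hq.bdd
  obtain ⟨r, hr⟩ := hq.supp
  have h1 : Integrable ((Metric.closedBall (0 : E3) r).indicator (fun _ => M)) := by
    rw [integrable_indicator_iff measurableSet_closedBall]
    exact integrableOn_const measure_closedBall_lt_top.ne
  refine h1.mono' hq.meas.aestronglyMeasurable (Eventually.of_forall fun x => ?_)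
  by_cases hx : x ∈ Metric.closedBall (0 : E3) r
  · rw [indicator_of_mem hx]; exact hM x
  · rw [indicator_of_notMem hx, hr x]
    · simp
    · simpa using hx

lemma pot_nonneg {w : E3 → ℝ} (hw : ∀ x, 0 ≤ w x) (y : E3) : 0 ≤ pot w y := by
  unfold pot
  exact integral_nonneg fun x => div_nonneg (hw x) (norm_nonneg _)

/-- The product kernel is integrable, and its integral is `∫ ρ pot ρ`. -/
lemma kern_int (hP : PotStatement) {ρ : E3 → ℝ} (hρ : BC ρ) (h0 : ∀ x, 0 ≤ ρ x) :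
    Integrable (fun p : E3 × E3 => ρ p.1 * ρ p.2 / ‖p.1 - p.2‖) (volume.prod volume) ∧
      ∫ p : E3 × E3, ρ p.1 * ρ p.2 / ‖p.1 - p.2‖ = ∫ x, ρ x * pot ρ x := by
  obtain ⟨hi, _, ⟨C, hC⟩, hc, _⟩ := hP ρ hρ
  have hmeas : Measurable (fun p : E3 × E3 => ρ p.1 * ρ p.2 / ‖p.1 - p.2‖) := by
    have := hρ.meas
    fun_prop
  have e1 : ∀ x : E3, (fun y => ρ x * ρ y / ‖x - y‖) = fun y => ρ x * (ρ y / ‖x - y‖) := by
    intro x; funext y; rw [mul_div_assoc]
  have hb : Integrable (fun x => pot ρ x * ρ x) := by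
    refine Integrable.bdd_mul (c := C) (bc_integrable hρ) hc.continuous.aestronglyMeasurable
      (Eventually.of_forall fun x => ?_)
    rw [Real.norm_eq_abs]
    have := hC x
    have h2 : 0 ≤ |pot ρ x| * ‖x‖ := by positivity
    nlinarith
  have hint : Integrable (fun p : E3 × E3 => ρ p.1 * ρ p.2 / ‖p.1 - p.2‖)
      (volume.prod volume) := by
    rw [integrable_prod_iff hmeas.aestronglyMeasurable]
    constructor
    · refine Eventually.of_forall fun x => ?_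
      simp only
      rw [e1 x]
      exact (hi x).const_mul _
    · refine hb.congr (Eventually.of_forall fun x => ?_)
      simp only
      have e2 : ∀ y, ‖ρ x * ρ y / ‖x - y‖‖ = ρ x * (ρ y / ‖x - y‖) := by
        intro y
        rw [Real.norm_eq_abs, abs_of_nonneg, mul_div_assoc]
        exact div_nonneg (mul_nonneg (h0 _) (h0 _)) (norm_nonneg _)
      simp only [e2]
      rw [integral_const_mul]
      unfold pot
      ring
  refine ⟨hint, ?_⟩
  have h3 := integral_prod _ hint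
  rw [← Measure.volume_eq_prod] at h3
  rw [h3]
  apply integral_congr_ae
  refine Eventually.of_forall fun x => ?_
  simp only
  rw [e1 x, integral_const_mul]
  rfl

/-- The coefficient of the left side. -/
noncomputable def d1 (μ ε : ℝ) (φ : E3 → ℝ) (r : ℝ) (x : E3) : ℝ :=
  (r - μ) ^ (3 / 2 : ℝ) * hr ε r (φ x) ^ 2

/-- The coefficient of the first term. -/
noncomputable def d2 (ε : ℝ) (φ : E3 → ℝ) (r : ℝ) (x : E3) : ℝ := kr ε r (φ x)

/-- The coefficient of the second term. -/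
noncomputable def d3 (ε : ℝ) (φ : E3 → ℝ) (r : ℝ) (p : E3 × E3) : ℝ :=
  kr ε r (φ p.1) * (1 - hr ε r (φ p.2))

lemma d1_meas (μ ε : ℝ) {φ : E3 → ℝ} (hφc : Continuous φ) :
    Measurable (fun p : ℝ × E3 => d1 μ ε φ p.1 p.2) := by
  apply Continuous.measurable
  unfold d1
  refine Continuous.mul ?_ (Continuous.pow ?_ 2)
  · exact (by fun_prop : Continuous fun p : ℝ × E3 => p.1 - μ).rpow_const
      (fun _ => Or.inr (by norm_num))
  · exact (hr_cont2 ε).comp (by fun_prop : Continuous fun p : ℝ × E3 => (p.1, φ p.2))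

lemma d2_meas (ε : ℝ) {φ : E3 → ℝ} (hφc : Continuous φ) :
    Measurable (fun p : ℝ × E3 => d2 ε φ p.1 p.2) := by
  apply Continuous.measurable
  unfold d2
  exact (kr_cont2 ε).comp (by fun_prop : Continuous fun p : ℝ × E3 => (p.1, φ p.2))

lemma d3_meas (ε : ℝ) {φ : E3 → ℝ} (hφc : Continuous φ) :
    Measurable (fun p : ℝ × (E3 × E3) => d3 ε φ p.1 p.2) := by
  apply Continuous.measurable
  unfold d3
  refine Continuous.mul ?_ (continuous_const.sub ?_)
  · exact (kr_cont2 ε).comp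
      (by fun_prop : Continuous fun p : ℝ × (E3 × E3) => (p.1, φ p.2.1))
  · exact (hr_cont2 ε).comp
      (by fun_prop : Continuous fun p : ℝ × (E3 × E3) => (p.1, φ p.2.2))

lemma d3_cont (ε r : ℝ) {φ : E3 → ℝ} (hφc : Continuous φ) : Continuous (d3 ε φ r) := by
  unfold d3
  refine Continuous.mul ?_ (continuous_const.sub ?_)
  · exact (kr_cont2 ε).comp (by fun_prop : Continuous fun p : E3 × E3 => (r, φ p.1))
  · exact (hr_cont2 ε).comp (by fun_prop : Continuous fun p : E3 × E3 => (r, φ p.2))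

lemma d1_bdd {μ ε : ℝ} {φ : E3 → ℝ} {T : ℝ} :
    ∀ r ∈ Ioc μ T, ∀ x, |d1 μ ε φ r x| ≤ (T - μ) ^ (3 / 2 : ℝ) := by
  intro r hr' x
  have h1 : 0 ≤ r - μ := by linarith [hr'.1]
  have h2 : (r - μ) ^ (3 / 2 : ℝ) ≤ (T - μ) ^ (3 / 2 : ℝ) := by
    apply Real.rpow_le_rpow h1 (by linarith [hr'.2]) (by norm_num)
  have h3 : 0 ≤ (r - μ) ^ (3 / 2 : ℝ) := by positivity
  have h4 := hr_nonneg ε r (φ x)
  have h5 := hr_le_one ε r (φ x)
  have h6 : hr ε r (φ x) ^ 2 ≤ 1 := pow_le_one₀ h4 h5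
  unfold d1
  rw [abs_of_nonneg (by positivity)]
  calc (r - μ) ^ (3 / 2 : ℝ) * hr ε r (φ x) ^ 2 ≤ (r - μ) ^ (3 / 2 : ℝ) * 1 := by gcongr
    _ ≤ _ := by rw [mul_one]; exact h2

lemma d2_bdd {ε : ℝ} (hε : 0 < ε) {φ : E3 → ℝ} (r : ℝ) (x : E3) : |d2 ε φ r x| ≤ 6 / ε := by
  unfold d2
  rw [abs_of_nonneg (kr_nonneg hε _ _)]
  exact kr_le hε _ _

lemma d3_bdd {ε : ℝ} (hε : 0 < ε) {φ : E3 → ℝ} (r : ℝ) (p : E3 × E3) :
    |d3 ε φ r p| ≤ 6 / ε := by
  unfold d3
  have h1 := kr_nonneg hε r (φ p.1)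
  have h2 := kr_le hε r (φ p.1)
  have h3 := hr_nonneg ε r (φ p.2)
  have h4 := hr_le_one ε r (φ p.2)
  rw [abs_of_nonneg (mul_nonneg h1 (by linarith))]
  calc kr ε r (φ p.1) * (1 - hr ε r (φ p.2)) ≤ kr ε r (φ p.1) * 1 := by
        gcongr; linarith
    _ ≤ _ := by rw [mul_one]; exact h2

/-- The Coulomb kernel of `ρ`. -/
noncomputable def K3 (ρ : E3 → ℝ) (p : E3 × E3) : ℝ := ρ p.1 * ρ p.2 / ‖p.1 - p.2‖

lemma K3_swap (ρ : E3 → ℝ) (p : E3 × E3) : K3 ρ p.swap = K3 ρ p := by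
  unfold K3
  simp only [Prod.fst_swap, Prod.snd_swap]
  rw [norm_sub_rev, mul_comm (ρ p.2)]

lemma K3_nonneg {ρ : E3 → ℝ} (hρ0 : ∀ x, 0 ≤ ρ x) (p : E3 × E3) : 0 ≤ K3 ρ p :=
  div_nonneg (mul_nonneg (hρ0 _) (hρ0 _)) (norm_nonneg _)

/-- Upper bound of the second term after integration over the levels. -/
lemma second_le {ρ : E3 → ℝ} (hρ0 : ∀ x, 0 ≤ ρ x)
    (hK3 : Integrable (K3 ρ) ((volume : Measure E3).prod volume))
    (hK3i : ∫ p, K3 ρ p ∂((volume : Measure E3).prod volume) = ∫ x, ρ x * pot ρ x)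
    {φ : E3 → ℝ} (hφc : Continuous φ) {ε : ℝ} (hε : 0 < ε) {μ T : ℝ} (hμT : μ ≤ T) :
    ∫ p, (∫ r in Ioc μ T, d3 ε φ r p) * K3 ρ p ∂((volume : Measure E3).prod volume) ≤
      dir ρ := by
  have f1 := fub_right ((volume : Measure E3).prod volume) μ T (K3 ρ) hK3 (d3 ε φ)
    (d3_meas ε hφc) (6 / ε) (fun r _ x => d3_bdd hε r x)
  have e1 : ∀ p : E3 × E3, (fun p : E3 × E3 => (∫ r in Ioc μ T, d3 ε φ r p) * K3 ρ p) p.swap =
      (∫ r in Ioc μ T, d3 ε φ r p.swap) * K3 ρ p := by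
    intro p
    simp only
    rw [K3_swap]
  have f3 : Integrable (fun p : E3 × E3 => (∫ r in Ioc μ T, d3 ε φ r p.swap) * K3 ρ p)
      ((volume : Measure E3).prod volume) := by
    have h7 := f1.swap
    exact h7.congr (Eventually.of_forall e1)
  have f2 : ∫ p, (∫ r in Ioc μ T, d3 ε φ r p) * K3 ρ p ∂((volume : Measure E3).prod volume) =
      ∫ p, (∫ r in Ioc μ T, d3 ε φ r p.swap) * K3 ρ p ∂((volume : Measure E3).prod volume) := by
    have := integral_prod_swap (μ := (volume : Measure E3)) (ν := (volume : Measure E3))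
      (fun p : E3 × E3 => (∫ r in Ioc μ T, d3 ε φ r p) * K3 ρ p)
    rw [← this]
    exact integral_congr_ae (Eventually.of_forall e1)
  have f4 : (∫ p, (∫ r in Ioc μ T, d3 ε φ r p) * K3 ρ p ∂((volume : Measure E3).prod volume)) +
      (∫ p, (∫ r in Ioc μ T, d3 ε φ r p.swap) * K3 ρ p ∂((volume : Measure E3).prod volume)) ≤
      ∫ p, K3 ρ p ∂((volume : Measure E3).prod volume) := by
    rw [← integral_add f1 f3]
    apply integral_mono (f1.add f3) hK3
    intro p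
    simp only
    have h1 := int_sym_le ε hμT (φ p.1) (φ p.2)
    have h2 := K3_nonneg hρ0 p
    have h3 : ((∫ r in Ioc μ T, d3 ε φ r p) + ∫ r in Ioc μ T, d3 ε φ r p.swap) ≤ 1 := h1
    calc _ = ((∫ r in Ioc μ T, d3 ε φ r p) + ∫ r in Ioc μ T, d3 ε φ r p.swap) * K3 ρ p := by
          simp only [Pi.add_apply]
          ring
      _ ≤ 1 * K3 ρ p := by gcongr
      _ = _ := one_mul _
  rw [← f2, hK3i] at f4
  unfold dir
  linarith

/-- The level inequality, multiplied by the weight. -/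
lemma level_mul {γ μ T ε r : ℝ} {φ ρ : E3 → ℝ} {B : Set E3} (hμ : 0 < μ)
    (hε : 0 < ε) (hφc : Continuous φ)
    (hρ0 : ∀ x, 0 ≤ ρ x)
    (hγρ : ∀ x, γ ^ (3 / 2 : ℝ) * ρ x = (max (φ x - μ) 0) ^ (3 / 2 : ℝ))
    (hφB : ∀ x, x ∉ B → φ x ≤ μ)
    (hK2 : Integrable (fun x => φ x * ρ x))
    (hK3 : Integrable (K3 ρ) ((volume : Measure E3).prod volume))
    (hr' : r ∈ Ioc μ T)
    (hlev : 3 * ∫ x, hr ε r (φ x) ^ 2 ≤ (∫ x, kr ε r (φ x) * φ x) +
      ∫ y, kr ε r (φ y) * pot (fun x => (1 - hr ε r (φ x)) * ρ x) y) :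
    3 * ∫ x, d1 μ ε φ r x * B.indicator (fun _ => (1 : ℝ)) x ≤
        γ ^ (3 / 2 : ℝ) * ((∫ x, d2 ε φ r x * (φ x * ρ x)) +
          ∫ p, d3 ε φ r p * K3 ρ p ∂((volume : Measure E3).prod volume)) := by
  have hr0 : 0 < r := lt_trans hμ hr'.1
  have hg0 : 0 ≤ (r - μ) ^ (3 / 2 : ℝ) := by
    have : 0 ≤ r - μ := by linarith [hr'.1]
    positivity
  -- left side
  have e1 : ∫ x, d1 μ ε φ r x * B.indicator (fun _ => (1 : ℝ)) x =
      (r - μ) ^ (3 / 2 : ℝ) * ∫ x, hr ε r (φ x) ^ 2 := by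
    rw [← integral_const_mul]
    apply integral_congr_ae
    refine Eventually.of_forall fun x => ?_
    simp only [d1]
    by_cases hx : x ∈ B
    · rw [indicator_of_mem hx, mul_one]
    · rw [indicator_of_notMem hx, hr_zero hε ((hφB x hx).trans hr'.1.le)]
      simp
  -- the pointwise bound of the weight
  have hw : ∀ x, (r - μ) ^ (3 / 2 : ℝ) * kr ε r (φ x) ≤
      γ ^ (3 / 2 : ℝ) * (kr ε r (φ x) * ρ x) := by
    intro x
    rcases le_or_gt (φ x) r with h | h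
    · rw [kr_zero hε h]; simp
    · have h1 : (r - μ) ^ (3 / 2 : ℝ) ≤ γ ^ (3 / 2 : ℝ) * ρ x := by
        rw [hγρ x, max_eq_left (by linarith [hr'.1])]
        apply Real.rpow_le_rpow (by linarith [hr'.1]) (by linarith) (by norm_num)
      have h2 := kr_nonneg hε r (φ x)
      calc (r - μ) ^ (3 / 2 : ℝ) * kr ε r (φ x) ≤
          (γ ^ (3 / 2 : ℝ) * ρ x) * kr ε r (φ x) := by gcongr
        _ = _ := by ring
  -- first term
  have e2 : (r - μ) ^ (3 / 2 : ℝ) * ∫ x, kr ε r (φ x) * φ x ≤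
      γ ^ (3 / 2 : ℝ) * ∫ x, d2 ε φ r x * (φ x * ρ x) := by
    rw [← integral_const_mul, ← integral_const_mul]
    apply integral_mono_of_nonneg
    · refine Eventually.of_forall fun x => ?_
      simp only [Pi.zero_apply]
      rcases le_or_gt (φ x) r with h | h
      · rw [kr_zero hε h]; simp
      · have := kr_nonneg hε r (φ x)
        have h3 : 0 ≤ φ x := by linarith
        positivity
    · apply Integrable.const_mul
      refine Integrable.bdd_mul (c := 6 / ε) hK2 ?_ ?_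
      · exact ((kr_cont ε r).comp hφc).aestronglyMeasurable
      · exact Eventually.of_forall fun x => d2_bdd hε r x
    · refine Eventually.of_forall fun x => ?_
      simp only [d2]
      rcases le_or_gt (φ x) r with h | h
      · rw [kr_zero hε h]; simp
      · have h3 : 0 ≤ φ x := by linarith
        have := mul_le_mul_of_nonneg_right (hw x) h3
        calc _ = (r - μ) ^ (3 / 2 : ℝ) * kr ε r (φ x) * φ x := by ring
          _ ≤ γ ^ (3 / 2 : ℝ) * (kr ε r (φ x) * ρ x) * φ x := this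
          _ = _ := by ring
  -- second term
  have hwnn : ∀ x, 0 ≤ (1 - hr ε r (φ x)) * ρ x := fun x =>
    mul_nonneg (sub_nonneg.2 (hr_le_one ε _ _)) (hρ0 x)
  have hint3 : Integrable (fun p : E3 × E3 => d3 ε φ r p * K3 ρ p)
      ((volume : Measure E3).prod volume) :=
    Integrable.bdd_mul (c := 6 / ε) hK3 (d3_cont ε r hφc).aestronglyMeasurable
      (Eventually.of_forall fun x => d3_bdd hε r x)
  have hinner : ∀ y : E3, ∫ x, d3 ε φ r (y, x) * K3 ρ (y, x) =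
      kr ε r (φ y) * ρ y * pot (fun x => (1 - hr ε r (φ x)) * ρ x) y := by
    intro y
    unfold pot
    rw [← integral_const_mul]
    apply integral_congr_ae
    refine Eventually.of_forall fun x => ?_
    simp only [d3, K3]
    ring
  have hprod : ∫ p, d3 ε φ r p * K3 ρ p ∂((volume : Measure E3).prod volume) =
      ∫ y, kr ε r (φ y) * ρ y * pot (fun x => (1 - hr ε r (φ x)) * ρ x) y := by
    rw [integral_prod _ hint3]
    exact integral_congr_ae (Eventually.of_forall hinner)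
  have hint4 : Integrable (fun y => kr ε r (φ y) * ρ y *
      pot (fun x => (1 - hr ε r (φ x)) * ρ x) y) :=
    hint3.integral_prod_left.congr (Eventually.of_forall hinner)
  have e3 : (r - μ) ^ (3 / 2 : ℝ) *
      ∫ y, kr ε r (φ y) * pot (fun x => (1 - hr ε r (φ x)) * ρ x) y ≤
      γ ^ (3 / 2 : ℝ) * ∫ p, d3 ε φ r p * K3 ρ p ∂((volume : Measure E3).prod volume) := by
    rw [hprod, ← integral_const_mul, ← integral_const_mul]
    apply integral_mono_of_nonneg
    · refine Eventually.of_forall fun x => ?_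
      simp only [Pi.zero_apply]
      have h1 := kr_nonneg hε r (φ x)
      have h2 := pot_nonneg hwnn x
      positivity
    · exact hint4.const_mul _
    · refine Eventually.of_forall fun x => ?_
      simp only
      have := mul_le_mul_of_nonneg_right (hw x) (pot_nonneg hwnn x)
      calc _ = (r - μ) ^ (3 / 2 : ℝ) * kr ε r (φ x) *
            pot (fun x => (1 - hr ε r (φ x)) * ρ x) x := by ring
        _ ≤ γ ^ (3 / 2 : ℝ) * (kr ε r (φ x) * ρ x) *
            pot (fun x => (1 - hr ε r (φ x)) * ρ x) x := this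
        _ = _ := by ring
  rw [e1]
  have e4 := mul_le_mul_of_nonneg_left hlev hg0
  rw [mul_add] at e4
  rw [mul_add]
  linarith

/-- The inequality at fixed `ε`. -/
lemma fixed_eps (hP : PotStatement) (hL : LevelStatement) {γ μ : ℝ} {m ρ : E3 → ℝ}
    (hγ : 0 < γ) (hμ : 0 < μ) (hm : BC m) (hm0 : ∀ x, 0 ≤ m x) (hT : IsTF γ μ m ρ)
    {ε : ℝ} (hε : 0 < ε) :
    6 / 5 * ∫ x, (max (pot m x - pot ρ x - ε - μ) 0) ^ (5 / 2 : ℝ) ≤
      γ ^ (3 / 2 : ℝ) * ((∫ x, (pot m x - pot ρ x) * ρ x) + dir ρ) := by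
  obtain ⟨hφc, C, hC0, hC⟩ := phi_facts hP hm hT.bc
  have hρ := hT.bc
  have hρeq := hT.eq
  have hLev : ∀ r, 0 < r → 3 * ∫ x, hr ε r (pot m x - pot ρ x) ^ 2 ≤
      (∫ x, kr ε r (pot m x - pot ρ x) * (pot m x - pot ρ x)) +
      ∫ y, kr ε r (pot m y - pot ρ y) *
        pot (fun x => (1 - hr ε r (pot m x - pot ρ x)) * ρ x) y := by
    intro r hr0
    have hρ0 : ∀ x, 0 ≤ ρ x := by
      intro x; rw [hρeq x]; positivity
    have hlev := hL m ρ (hr ε r) r hm hρ hm0 hρ0 (hr_contDiff ε r) (hr_mono hε r)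
      (fun s => hr_le_one ε r s) (fun s hs => hr_zero hε hs) hr0
    simpa only [hr_deriv] using hlev
  obtain ⟨φ, hφ⟩ : ∃ φ : E3 → ℝ, φ = fun x => pot m x - pot ρ x := ⟨_, rfl⟩
  have hφx : ∀ x, pot m x - pot ρ x = φ x := fun x => by rw [hφ]
  simp only [hφx] at hC hρeq hLev hφc ⊢
  have hρ0 : ∀ x, 0 ≤ ρ x := by
    intro x; rw [hρeq x]; positivity
  have hγρ : ∀ x, γ ^ (3 / 2 : ℝ) * ρ x = (max (φ x - μ) 0) ^ (3 / 2 : ℝ) := by
    intro x
    rw [hρeq x, Real.div_rpow (le_max_right _ _) hγ.le]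
    field_simp
  have hρz : ∀ x, φ x ≤ μ → ρ x = 0 := by
    intro x hx
    rw [hρeq x, max_eq_right (by linarith), zero_div, Real.zero_rpow (by norm_num)]
  -- bounds
  have hφabs : ∀ x, |φ x| ≤ C := by
    intro x
    have := hC x
    have h2 : 0 ≤ |φ x| * ‖x‖ := by positivity
    nlinarith
  obtain ⟨T, hTC, hμT⟩ : ∃ T : ℝ, C ≤ T ∧ μ ≤ T := ⟨max C μ, le_max_left _ _, le_max_right _ _⟩
  have hφT : ∀ x, φ x ≤ T := fun x => (le_abs_self _).trans ((hφabs x).trans hTC)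
  obtain ⟨B, hB⟩ : ∃ B : Set E3, B = Metric.closedBall 0 (C / μ) := ⟨_, rfl⟩
  have hBm : MeasurableSet B := by rw [hB]; exact measurableSet_closedBall
  have hφB : ∀ x, x ∉ B → φ x ≤ μ := by
    intro x hx
    by_contra hcon
    push Not at hcon
    have h1 : C / μ < ‖x‖ := by simpa [hB] using hx
    rw [div_lt_iff₀ hμ] at h1
    have h2 := hC x
    rw [abs_of_pos (by linarith)] at h2
    nlinarith [norm_nonneg x]
  -- the kernels
  have hK1 : Integrable (B.indicator (fun _ => (1 : ℝ))) := by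
    rw [integrable_indicator_iff hBm, hB]
    exact integrableOn_const measure_closedBall_lt_top.ne
  have hK2 : Integrable (fun x => φ x * ρ x) :=
    Integrable.bdd_mul (c := C) (bc_integrable hρ) hφc.aestronglyMeasurable
      (Eventually.of_forall fun x => hφabs x)
  have hK2nn : ∀ x, 0 ≤ φ x * ρ x := by
    intro x
    rcases le_or_gt (φ x) μ with h | h
    · rw [hρz x h]; simp
    · exact mul_nonneg (by linarith) (hρ0 x)
  obtain ⟨hK3, hK3i⟩ := kern_int hP hρ hρ0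
  change Integrable (K3 ρ) _ at hK3
  -- the level inequality at level `r`
  have key : ∀ r ∈ Ioc μ T,
      3 * ∫ x, d1 μ ε φ r x * B.indicator (fun _ => (1 : ℝ)) x ≤
        γ ^ (3 / 2 : ℝ) * ((∫ x, d2 ε φ r x * (φ x * ρ x)) +
          ∫ p, d3 ε φ r p * K3 ρ p ∂((volume : Measure E3).prod volume)) := fun r hr' =>
    level_mul hμ hε hφc hρ0 hγρ hφB hK2 hK3 hr' (hLev r (lt_trans hμ hr'.1))
  -- integrate over the levels
  have i1 := fub_left volume μ T _ hK1 (d1 μ ε φ) (d1_meas μ ε hφc) _ d1_bdd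
  have i2 := fub_left volume μ T _ hK2 (d2 ε φ) (d2_meas ε hφc) _ (fun r _ x => d2_bdd hε r x)
  have i3 := fub_left ((volume : Measure E3).prod volume) μ T _ hK3 (d3 ε φ) (d3_meas ε hφc) _
    (fun r _ x => d3_bdd hε r x)
  have hmain : ∫ r in Ioc μ T, 3 * ∫ x, d1 μ ε φ r x * B.indicator (fun _ => (1 : ℝ)) x ≤
      ∫ r in Ioc μ T, γ ^ (3 / 2 : ℝ) * ((∫ x, d2 ε φ r x * (φ x * ρ x)) +
          ∫ p, d3 ε φ r p * K3 ρ p ∂((volume : Measure E3).prod volume)) :=
    setIntegral_mono_on (i1.const_mul 3) ((i2.add i3).const_mul _) measurableSet_Ioc key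
  rw [integral_const_mul, integral_const_mul, integral_add i2 i3] at hmain
  have s1 := fub_swap volume μ T _ hK1 (d1 μ ε φ) (d1_meas μ ε hφc) _ d1_bdd
  have s2 := fub_swap volume μ T _ hK2 (d2 ε φ) (d2_meas ε hφc) _ (fun r _ x => d2_bdd hε r x)
  have s3 := fub_swap ((volume : Measure E3).prod volume) μ T _ hK3 (d3 ε φ) (d3_meas ε hφc) _
    (fun r _ x => d3_bdd hε r x)
  rw [s1, s2, s3] at hmain
  -- lower bound of the left side
  have l1 : 2 / 5 * ∫ x, (max (φ x - ε - μ) 0) ^ (5 / 2 : ℝ) ≤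
      ∫ x, (∫ r in Ioc μ T, d1 μ ε φ r x) * B.indicator (fun _ => (1 : ℝ)) x := by
    rw [← integral_const_mul]
    apply integral_mono_of_nonneg
    · refine Eventually.of_forall fun x => ?_
      simp only [Pi.zero_apply]
      positivity
    · exact fub_right volume μ T _ hK1 (d1 μ ε φ) (d1_meas μ ε hφc) _ d1_bdd
    · refine Eventually.of_forall fun x => ?_
      simp only
      by_cases hx : x ∈ B
      · rw [indicator_of_mem hx, mul_one]
        exact int_hr_ge hε hμT (hφT x)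
      · rw [indicator_of_notMem hx, mul_zero, max_eq_right (by linarith [hφB x hx]),
          Real.zero_rpow (by norm_num), mul_zero]
  -- upper bound of the first term
  have u1 : ∫ x, (∫ r in Ioc μ T, d2 ε φ r x) * (φ x * ρ x) ≤ ∫ x, φ x * ρ x := by
    apply integral_mono (fub_right volume μ T _ hK2 (d2 ε φ) (d2_meas ε hφc) _
      (fun r _ x => d2_bdd hε r x)) hK2
    intro x
    simp only
    have h1 : ∫ r in Ioc μ T, d2 ε φ r x ≤ 1 := int_kr_le ε hμT (φ x)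
    have h2 := hK2nn x
    calc _ ≤ 1 * (φ x * ρ x) := by gcongr
      _ = _ := one_mul _
  -- upper bound of the second term
  have u2 := second_le hρ0 hK3 hK3i hφc hε hμT
  have hγ3 : 0 ≤ γ ^ (3 / 2 : ℝ) := by positivity
  calc 6 / 5 * ∫ x, (max (φ x - ε - μ) 0) ^ (5 / 2 : ℝ)
      = 3 * (2 / 5 * ∫ x, (max (φ x - ε - μ) 0) ^ (5 / 2 : ℝ)) := by ring
    _ ≤ 3 * ∫ x, (∫ r in Ioc μ T, d1 μ ε φ r x) * B.indicator (fun _ => (1 : ℝ)) x := by gcongr
    _ ≤ _ := hmain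
    _ ≤ γ ^ (3 / 2 : ℝ) * ((∫ x, φ x * ρ x) + dir ρ) := by gcongr

/-- VIRIAL without the symmetry hypothesis. -/
theorem virial_aux (hP : PotStatement) (hL : LevelStatement) : VirialStatement := by
  intro γ μ m ρ hγ hμ hm hm0 hT
  obtain ⟨hφc, C, hC0, hC⟩ := phi_facts hP hm hT.bc
  have hfix : ∀ ε : ℝ, 0 < ε → 6 / 5 * ∫ x, (max (pot m x - pot ρ x - ε - μ) 0) ^ (5 / 2 : ℝ) ≤
      γ ^ (3 / 2 : ℝ) * ((∫ x, (pot m x - pot ρ x) * ρ x) + dir ρ) := fun ε hε =>
    fixed_eps hP hL hγ hμ hm hm0 hT hε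
  have hρ := hT.bc
  have hρeq := hT.eq
  obtain ⟨φ, hφ⟩ : ∃ φ : E3 → ℝ, φ = fun x => pot m x - pot ρ x := ⟨_, rfl⟩
  have hφx : ∀ x, pot m x - pot ρ x = φ x := fun x => by rw [hφ]
  simp only [hφx] at hC hρeq hfix hφc
  have hρ0 : ∀ x, 0 ≤ ρ x := by
    intro x; rw [hρeq x]; positivity
  have hγρ : ∀ x, γ ^ (3 / 2 : ℝ) * ρ x = (max (φ x - μ) 0) ^ (3 / 2 : ℝ) := by
    intro x
    rw [hρeq x, Real.div_rpow (le_max_right _ _) hγ.le]
    field_simp
  have hρz : ∀ x, φ x ≤ μ → ρ x = 0 := by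
    intro x hx
    rw [hρeq x, max_eq_right (by linarith), zero_div, Real.zero_rpow (by norm_num)]
  have hφabs : ∀ x, |φ x| ≤ C := by
    intro x
    have := hC x
    have h2 : 0 ≤ |φ x| * ‖x‖ := by positivity
    nlinarith
  have hρint := bc_integrable hρ
  have hφρ : Integrable (fun x => φ x * ρ x) :=
    Integrable.bdd_mul (c := C) hρint hφc.aestronglyMeasurable
      (Eventually.of_forall fun x => hφabs x)
  -- pointwise identities
  have hmulr : ∀ x, max (φ x - μ) 0 * ρ x = φ x * ρ x - μ * ρ x := by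
    intro x
    rcases le_or_gt (φ x) μ with h | h
    · rw [hρz x h]; ring
    · rw [max_eq_left (by linarith)]; ring
  have h52 : ∀ x, (max (φ x - μ) 0) ^ (5 / 2 : ℝ) =
      γ ^ (3 / 2 : ℝ) * (φ x * ρ x - μ * ρ x) := by
    intro x
    have h1 : (max (φ x - μ) 0) ^ (5 / 2 : ℝ) =
        max (φ x - μ) 0 * (max (φ x - μ) 0) ^ (3 / 2 : ℝ) := by
      have h0 : (0 : ℝ) ≤ max (φ x - μ) 0 := le_max_right _ _
      have h2 : (5 / 2 : ℝ) = 1 + 3 / 2 := by norm_num
      rw [h2, Real.rpow_add_of_nonneg h0 (by norm_num) (by norm_num), Real.rpow_one]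
    rw [h1, ← hγρ x, ← hmulr x]
    ring
  have h53 : ∀ x, ρ x ^ (5 / 3 : ℝ) = γ⁻¹ * (φ x * ρ x - μ * ρ x) := by
    intro x
    have h0 : (0 : ℝ) ≤ max (φ x - μ) 0 := le_max_right _ _
    have h0' : (0 : ℝ) ≤ max (φ x - μ) 0 / γ := div_nonneg h0 hγ.le
    have h1 : ρ x ^ (5 / 3 : ℝ) = (max (φ x - μ) 0 / γ) ^ (5 / 2 : ℝ) := by
      rw [hρeq x, ← Real.rpow_mul h0']
      norm_num
    have h2 : (max (φ x - μ) 0 / γ) ^ (5 / 2 : ℝ) =
        max (φ x - μ) 0 / γ * (max (φ x - μ) 0 / γ) ^ (3 / 2 : ℝ) := by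
      have h2 : (5 / 2 : ℝ) = 1 + 3 / 2 := by norm_num
      rw [h2, Real.rpow_add_of_nonneg h0' (by norm_num) (by norm_num), Real.rpow_one]
    rw [h1, h2, ← hρeq x, ← hmulr x]
    ring
  -- the limit
  have hb52 : Integrable (fun x => (max (φ x - μ) 0) ^ (5 / 2 : ℝ)) := by
    refine ((hφρ.sub (hρint.const_mul μ)).const_mul (γ ^ (3 / 2 : ℝ))).congr
      (Eventually.of_forall fun x => ?_)
    simp only [Pi.sub_apply]
    rw [h52 x]
  have hlim : Tendsto (fun ε : ℝ => ∫ x, (max (φ x - ε - μ) 0) ^ (5 / 2 : ℝ)) (𝓝[>] 0)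
      (𝓝 (∫ x, (max (φ x - μ) 0) ^ (5 / 2 : ℝ))) := by
    refine tendsto_integral_filter_of_dominated_convergence
      (fun x => (max (φ x - μ) 0) ^ (5 / 2 : ℝ)) ?_ ?_ hb52 ?_
    · refine Eventually.of_forall fun ε => ?_
      apply Continuous.aestronglyMeasurable
      exact (by fun_prop : Continuous fun x => max (φ x - ε - μ) 0).rpow_const
        (fun _ => Or.inr (by norm_num))
    · filter_upwards [self_mem_nhdsWithin] with ε hε
      refine Eventually.of_forall fun x => ?_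
      have hε' : 0 < ε := hε
      have h0 : (0 : ℝ) ≤ max (φ x - ε - μ) 0 := le_max_right _ _
      rw [Real.norm_eq_abs, abs_of_nonneg (by positivity)]
      apply Real.rpow_le_rpow h0 _ (by norm_num)
      exact max_le_max (by linarith) le_rfl
    · refine Eventually.of_forall fun x => ?_
      have hc : Continuous (fun ε : ℝ => (max (φ x - ε - μ) 0) ^ (5 / 2 : ℝ)) :=
        (by fun_prop : Continuous fun ε : ℝ => max (φ x - ε - μ) 0).rpow_const
          (fun _ => Or.inr (by norm_num))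
      have h1 := hc.tendsto 0
      simp only [sub_zero] at h1
      exact h1.mono_left nhdsWithin_le_nhds
  have hfin : 6 / 5 * ∫ x, (max (φ x - μ) 0) ^ (5 / 2 : ℝ) ≤
      γ ^ (3 / 2 : ℝ) * ((∫ x, φ x * ρ x) + dir ρ) := by
    refine le_of_tendsto (hlim.const_mul (6 / 5)) ?_
    filter_upwards [self_mem_nhdsWithin] with ε hε
    exact hfix ε hε
  have hγ3 : 0 < γ ^ (3 / 2 : ℝ) := by positivity
  have i52 : ∫ x, (max (φ x - μ) 0) ^ (5 / 2 : ℝ) =
      γ ^ (3 / 2 : ℝ) * ((∫ x, φ x * ρ x) - μ * ∫ x, ρ x) := by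
    have h1 : ∫ x, (max (φ x - μ) 0) ^ (5 / 2 : ℝ) =
        ∫ x, γ ^ (3 / 2 : ℝ) * (φ x * ρ x - μ * ρ x) :=
      integral_congr_ae (Eventually.of_forall h52)
    rw [h1, integral_const_mul, integral_sub hφρ (hρint.const_mul μ), integral_const_mul]
  have i53 : ∫ x, ρ x ^ (5 / 3 : ℝ) = γ⁻¹ * ((∫ x, φ x * ρ x) - μ * ∫ x, ρ x) := by
    have h1 : ∫ x, ρ x ^ (5 / 3 : ℝ) = ∫ x, γ⁻¹ * (φ x * ρ x - μ * ρ x) :=
      integral_congr_ae (Eventually.of_forall h53)
    rw [h1, integral_const_mul, integral_sub hφρ (hρint.const_mul μ), integral_const_mul]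
  rw [i52] at hfin
  have hfin2 : 6 / 5 * ((∫ x, φ x * ρ x) - μ * ∫ x, ρ x) ≤ (∫ x, φ x * ρ x) + dir ρ := by
    have h1 : γ ^ (3 / 2 : ℝ) * (6 / 5 * ((∫ x, φ x * ρ x) - μ * ∫ x, ρ x)) ≤
        γ ^ (3 / 2 : ℝ) * ((∫ x, φ x * ρ x) + dir ρ) := by
      calc _ = 6 / 5 * (γ ^ (3 / 2 : ℝ) * ((∫ x, φ x * ρ x) - μ * ∫ x, ρ x)) := by ring
        _ ≤ _ := hfin
    exact le_of_mul_le_mul_left h1 hγ3
  have hk : γ * kin ρ = 3 / 5 * ((∫ x, φ x * ρ x) - μ * ∫ x, ρ x) := by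
    unfold kin
    rw [i53]
    field_simp
  rw [hk]
  linarith

/-- VIRIAL. -/
theorem virial (hP : PotStatement) (_hS : SymStatement) (hL : LevelStatement) :
    VirialStatement :=
  virial_aux hP hL

end Pool.Agent.Lib.MP_405077_mp.H8
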